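import Pool.Agent.Lib.MP_322279_an.CapMain

/-!
The vertex of every convex circular cone in three dimensions fails to be Wiener regular for some
strongly elliptic operator with constant complex coefficients.
-/

open Set Filter Topology Pool.Agent.Lib.MP_322279_an Pool.Agent.Lib.MP_322279_an.Cap

theorem Pool.Agent.Lib.MP_322279_an.Variants.capCounterexample :
    ∀ h : ℝ, 0 < h → h < 1 → ∀ Ω : Set E3, Ω = {x : E3 | ‖x‖ < 1 ∧ h * ‖x‖ < x 2} →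
      ∃ (A : Fin 3 → Fin 3 → ℂ) (f : E3 → ℂ),
        (∀ i j, A i j = A j i) ∧
        (∃ c : ℝ, 0 < c ∧ ∀ ξ : E3, c * ‖ξ‖ ^ 2 ≤ (∑ i, ∑ j, A i j * ξ i * ξ j).re) ∧
        IsTest Ω f ∧ (∃ u, IsSolution A Ω f u) ∧
        ∀ u, IsSolution A Ω f u →
          (∀ r : ℝ, 0 < r → ∀ C : ℝ, ∃ x ∈ Ω, ‖x‖ < r ∧ C < ‖u x‖) ∧
          ¬ Tendsto u (𝓝[Ω] 0) (𝓝 0) := by
  intro h h0 h1 Ω hΩ
  rw [cap_eq h0] at hΩ
  subst hΩ
  obtain ⟨d, c, hc, hd, f, hf, H⟩ := main_cap (δ := (1 - h ^ 2) / h ^ 2)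
    (div_pos (by nlinarith) (by positivity))
  refine ⟨diagM d, f, fun i j => ?_, ⟨c, hc, fun ξ => ?_⟩, hf, ?_, fun u hu => ⟨H u hu, fun l => ?_⟩⟩
  · by_cases h : i = j
    · rw [h]
    · simp [diagM, h, Ne.symm h]
  · rw [EuclideanSpace.real_norm_sq_eq, Complex.re_sum, Finset.mul_sum]
    refine Finset.sum_le_sum fun i _ => ?_
    have : ∑ j, diagM d i j * ξ i * ξ j = d i * ((ξ i ^ 2 : ℝ) : ℂ) := by
      simp [diagM, sq, mul_assoc]
    rw [this, Complex.re_mul_ofReal]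
    exact mul_le_mul_of_nonneg_right (hd i) (sq_nonneg _)
  · obtain ⟨u, g, h1, h2⟩ := exists_weak isOpen_Oc (fun x hx => zlt hx) hc hd (hf.memLp _)
    exact ⟨u, inH10_iff.2 ⟨g, h1⟩, fun φ hφ =>
      neg_injective ((h1.green_test isOpen_Oc hφ).symm.trans (h2 φ hφ))⟩
  · obtain ⟨r, r0, hr⟩ := Metric.tendsto_nhdsWithin_nhds.1 l 1 one_pos
    obtain ⟨x, h1, h2, h3⟩ := H u hu r r0 1
    have := hr h1 (by simpa using h2)
    rw [dist_zero_right] at this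
    linarith
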